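import Mathlib
import Pool.Agent.H23.RN
import Pool.Agent.H23.Olig

set_option autoImplicit false

open FirstOrder FirstOrder.Language Set Filter Topology

namespace Pool.Agent.Results.MP_6e9b54_lc.Minimal

/-- The topology of pointwise convergence on `End(A)`: induced from `Ω^Ω` with `Ω` discrete. -/
@[reducible] def pw (L : FirstOrder.Language.{0, 0}) (Ω : Type) [L.Structure Ω] :
    TopologicalSpace (Ω →[L] Ω) :=
  TopologicalSpace.induced (fun f : Ω →[L] Ω => (f : Ω → Ω))
    (@Pi.topologicalSpace Ω (fun _ => Ω) fun _ => ⊥)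

/-- Semigroup topologies on `End(A)`: composition is jointly continuous. -/
def IsSemigroupTop {L : FirstOrder.Language.{0, 0}} {Ω : Type} [L.Structure Ω]
    (τ : TopologicalSpace (Ω →[L] Ω)) : Prop :=
  @Continuous _ _ (@instTopologicalSpaceProd _ _ τ τ) τ fun p => p.1.comp p.2

open Pool.Agent.H23 in
/-- For every `ω`-categorical structure in a countable language, the pointwise topology is minimal
among Hausdorff semigroup topologies on the endomorphism monoid. -/
theorem result (L : FirstOrder.Language.{0, 0}) [Countable L.Symbols]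
    (Ω : Type) [Countable Ω] [Infinite Ω] [L.Structure Ω]
    (hcat : Cardinal.Categorical (Cardinal.aleph0 : Cardinal.{0}) (L.completeTheory Ω))
    (τ : TopologicalSpace (Ω →[L] Ω)) (hT2 : @T2Space _ τ) (hs : IsSemigroupTop τ)
    (hle : ∀ U, IsOpen[τ] U → IsOpen[pw L Ω] U) : τ = pw L Ω := by
  classical
  have hF := RN.fin_types hcat
  have sys : Olig.Sys (fun k (x y : Fin k → Ω) => RN.Eqv L x y) :=
    ⟨fun h φ => (h φ).symm, fun h h' φ => (h φ).trans (h' φ), hF, fun h => h.comp _,
      fun x y h => RN.extend (hF _) x y h⟩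
  have mkhom : ∀ f : Ω → Ω, (∀ F : Finset Ω, ∃ g : Ω →[L] Ω, ∀ x ∈ F, g x = f x) →
      ∃ g : Ω →[L] Ω, (g : Ω → Ω) = f := by
    intro f hf
    refine ⟨⟨f, fun {n} F x => ?_, fun {n} r x hx => ?_⟩, rfl⟩
    · obtain ⟨g, hg⟩ := hf (insert (Structure.funMap F x) (Finset.univ.image x))
      rw [← hg _ (by simp), g.map_fun]
      exact congrArg _ (funext fun i => hg _ (by simp))
    · obtain ⟨g, hg⟩ := hf (Finset.univ.image x)
      have : f ∘ x = g ∘ x := funext fun i => (hg _ (by simp)).symm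
      rw [this]
      exact g.map_rel r x hx
  have real : ∀ k (x y : Fin k → Ω), RN.Eqv L x y →
      ∃ g : Ω →[L] Ω, Function.Injective g ∧ ∀ i, g (x i) = y i := by
    intro k x y h
    obtain ⟨e, he⟩ := exists_surjective_nat Ω
    choose ι hι using he
    let X : ℕ → Ω := fun n => if h : n < k then x ⟨n, h⟩ else e (n - k)
    have hX : (fun i : Fin k => X i) = x := funext fun i => dif_pos i.2
    obtain ⟨z, hz0, hz⟩ := Olig.limit sys (fun m i => X i) k (fun m φ => Iff.rfl) y (hX ▸ h)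
    have hr : ∀ a, ∃ n, X n = a := fun a => ⟨ι a + k, by simp [X, hι]⟩
    choose j hj using hr
    have el : ∀ (m : ℕ) (r : Fin m → ℕ) (φ : L.Formula (Fin m)),
        φ.Realize (fun i => X (r i)) ↔ φ.Realize fun i => z (r i) := by
      intro m r φ
      exact (hz (Finset.univ.sup r + 1)).comp (fun i => ⟨r i, by
        have := Finset.le_sup (f := r) (Finset.mem_univ i)
        omega⟩) φ
    have eq : ∀ a b, X a = X b ↔ z a = z b := fun a b => by
      simpa using el 2 ![a, b] ((Term.var 0).equal (Term.var 1))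
    let g : Ω ↪ₑ[L] Ω := ⟨fun a => z (j a), fun m φ v => by
      have := el m (fun i => j (v i)) φ
      simp only [hj] at this
      exact this.symm⟩
    refine ⟨g.toHom, g.injective, fun i => ?_⟩
    rw [← hz0 i]
    exact (eq _ _).1 ((hj _).trans (congrFun hX i).symm)
  letI : Mul (Ω →[L] Ω) := ⟨Hom.comp⟩
  have nb : ∀ (s : Ω →[L] Ω) (W : Set (Ω →[L] Ω)), W ∈ @nhds _ (pw L Ω) s ↔
      ∃ F : Finset Ω, ∀ t : Ω →[L] Ω, (∀ x ∈ F, t x = s x) → t ∈ W := by
    intro s W
    letI : TopologicalSpace Ω := ⊥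
    haveI : DiscreteTopology Ω := ⟨rfl⟩
    rw [nhds_induced, nhds_pi, mem_comap]
    constructor
    · rintro ⟨V, hV, h⟩
      obtain ⟨I, hI, u, hu, h2⟩ := mem_pi.1 hV
      refine ⟨hI.toFinset, fun t ht => h (h2 fun i hi => ?_)⟩
      show t i ∈ u i
      rw [ht i (by simpa using hi)]
      exact mem_of_mem_nhds (hu i)
    · rintro ⟨F, hF⟩
      exact ⟨_, pi_mem_pi F.finite_toSet (s := fun i => {s i}) fun i _ => by simp,
        fun t ht => hF t fun x hx => ht x hx⟩
  have h1 : pw L Ω ≤ τ := fun U hU => hle U hU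
  refine le_antisymm (le_of_nhds_le_nhds fun s W hW => ?_) h1
  obtain ⟨F, hF⟩ := (nb s W).1 hW
  letI := τ
  haveI : ContinuousMul (Ω →[L] Ω) := ⟨hs⟩
  have h2 : ∀ᶠ t in 𝓝 s, ∀ a ∈ F, t a = s a := (eventually_all_finset F).2 fun a _ =>
    Olig.minimal sys (fun f : Ω →[L] Ω => (f : Ω → Ω)) (fun _ _ _ => rfl) mkhom real
      (fun s W hW => (nb s W).1 (nhds_mono h1 hW)) s a
  exact h2.mono hF

end Pool.Agent.Results.MP_6e9b54_lc.Minimal
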